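import Mathlib

set_option autoImplicit false

namespace Pool.Agent.Results.MP_37e11d_lc.Quad

/-- `g` occurs in the string `x ++ y` starting at a position inside `x` (it may run into `y`) -/
def Occ {α : Type} (x y g : List α) : Prop := ∃ j < x.length, g <+: (x ++ y).drop j

/-- `LZ x y z`: in the string `x ++ y`, with `x` already factored, the greedy self-referencing LZ77
factorization cuts the rest `y` into `z` factors -/
inductive LZ {α : Type} : List α → List α → ℕ → Prop
  | nil (x : List α) : LZ x [] 0
  | step (x f y : List α) (z : ℕ) : f ≠ [] → ¬ Occ x (f ++ y) f →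
      (∀ g, g <+: f → g ≠ [] → g ≠ f → Occ x (f ++ y) g) → LZ (x ++ f) y z → LZ x (f ++ y) (z + 1)
  | last (x f : List α) : f ≠ [] → (∀ g, g <+: f → g ≠ [] → Occ x f g) → LZ x f 1

variable {α : Type}

theorem lz_ex (n : ℕ) : ∀ x y : List α, y.length ≤ n → ∃ z, LZ x y z := by
  classical
  induction n with
  | zero => intro x y h; rw [List.length_eq_zero_iff.1 (Nat.le_zero.1 h)]; exact ⟨0, .nil x⟩
  | succ n ih =>
    intro x y h
    by_cases e : y = []
    · exact ⟨0, e ▸ .nil x⟩
    by_cases k : ∃ m, ∃ f, f <+: y ∧ f ≠ [] ∧ ¬ Occ x y f ∧ f.length = m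
    · obtain ⟨f, ⟨r, rfl⟩, f1, f2, f3⟩ := Nat.find_spec k
      have := List.length_pos_iff.2 f1
      obtain ⟨z, hz⟩ := ih (x ++ f) r (by simp at h; omega)
      refine ⟨z + 1, .step x f r z f1 f2 (fun g g1 g2 g3 => by_contra fun o => g3 ?_) hz⟩
      exact g1.eq_of_length_le (f3 ▸ Nat.find_min' k ⟨g, g1.trans (List.prefix_append _ _), g2, o, rfl⟩)
    · exact ⟨1, .last x y e fun g g1 g2 => by_contra fun o => k ⟨_, g, g1, g2, o, rfl⟩⟩

theorem Occ.self {x y g : List α} (h : Occ x y g) (p : g <+: y) : Occ x g g := by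
  obtain ⟨j, l, h⟩ := h
  refine ⟨j, l, ?_⟩
  rw [List.drop_append_of_le_length l.le] at h ⊢
  exact List.prefix_of_prefix_length_le h ((List.prefix_append_right_inj _).2 p) (by simp)

inductive Par : List α → List α → ℕ → Prop
  | nil (x : List α) : Par x [] 0
  | cons (x g y : List α) (r : ℕ) : (g.length ≤ 1 ∨ Occ x g g) → Par (x ++ g) y r → Par x (g ++ y) (r + 1)

theorem Par.app {x y y' : List α} {r r' : ℕ} (h : Par x y r) (h' : Par (x ++ y) y' r') :
    Par x (y ++ y') (r + r') := by
  induction h with
  | nil x => simpa using h'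
  | cons x g y r a _ ih =>
    rw [List.append_assoc, add_right_comm]
    exact .cons _ _ _ _ a (ih (by rwa [List.append_assoc]))

theorem Par.one {x g : List α} (h : g.length ≤ 1 ∨ Occ x g g) : Par x g 1 := by
  simpa using Par.cons x g [] 0 h (.nil _)

theorem Par.drop {x y : List α} {r : ℕ} (h : Par x y r) :
    ∀ f y', y = f ++ y' → ∃ r' ≤ r, Par (x ++ f) y' r' := by
  induction h with
  | nil x => intro f y' e; obtain ⟨_, rfl⟩ := List.nil_eq_append_iff.1 e; exact ⟨0, le_rfl, .nil _⟩
  | cons x g y r a b ih =>
    intro f y' e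
    rcases List.append_eq_append_iff.1 e with ⟨f', rfl, e'⟩ | ⟨g', rfl, rfl⟩
    · obtain ⟨r', l, h⟩ := ih f' y' e'
      exact ⟨r', by omega, by rwa [← List.append_assoc]⟩
    · refine ⟨r + 1, le_rfl, .cons _ _ _ _ (a.imp (fun a => by simp at a; omega) ?_)
        (by rwa [List.append_assoc])⟩
      rintro ⟨j, l, t, h⟩
      refine ⟨j + f.length, by simp [l], t, ?_⟩
      rw [← List.drop_drop, List.append_assoc, ← h]; simp

theorem opt (r : ℕ) : ∀ (x y : List α) z, Par x y r → LZ x y z → z ≤ r := by
  induction r using Nat.strong_induction_on with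
  | _ r ih =>
    intro x y z h k
    cases k with
    | nil => omega
    | last _ _ n => cases h with
      | nil => exact absurd rfl n
      | cons => omega
    | step _ f y z n o _ k =>
      generalize e : f ++ y = w at h
      cases h with
      | nil => simp [n] at e
      | cons _ g y' r a b =>
        rcases List.append_eq_append_iff.1 e with ⟨g', rfl, rfl⟩ | ⟨f', rfl, e'⟩
        · by_cases c : g' = []
          · subst c
            simp only [List.append_nil, List.nil_append] at *
            exact Nat.succ_le_succ (ih r (by omega) _ _ _ b k)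
          · have := List.length_pos_iff.2 n
            have := List.length_pos_iff.2 c
            obtain ⟨j, l, h⟩ := a.resolve_left (by simp; omega)
            refine absurd ⟨j, l, ((List.prefix_append _ _).trans h).trans ?_⟩ o
            rw [List.drop_append_of_le_length l.le, List.drop_append_of_le_length l.le]
            simp
        · obtain ⟨r', l, h⟩ := b.drop f' y e'
          exact Nat.succ_le_succ ((ih r' (by omega) _ _ _ h (by rwa [List.append_assoc])).trans l)

inductive T (α : Type) where
  | leaf : Option α → T α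
  | node : T α → T α → ℕ → T α → T α

def pw (l : List α) : ℕ → List α
  | 0 => []
  | n + 1 => l ++ pw l n

def T.val : T α → List α
  | leaf o => o.toList
  | node u a n v => u.val ++ (pw a.val n ++ v.val)

def T.dep : T α → ℕ
  | leaf _ => 0
  | node u a _ v => max u.dep (max a.dep v.dep) + 1

open Classical in
noncomputable def T.sub : T α → Finset (T α)
  | leaf o => {leaf o}
  | node u a n v => insert (node u a n v) (u.sub ∪ ((if n = 0 then ∅ else a.sub) ∪ v.sub))

theorem T.sub_spec (a : T α) : ∀ t ∈ a.sub, t.dep ≤ a.dep ∧ t.val <:+: a.val := by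
  induction a with
  | leaf o => simp [T.sub]
  | node u a n v iu ia iv =>
    simp only [T.sub, Finset.mem_insert, Finset.mem_union]
    rintro t (rfl | h | h | h)
    · simp
    · exact ⟨by have := (iu t h).1; rw [T.dep]; omega, (iu t h).2.trans (List.prefix_append _ _).isInfix⟩
    · cases n with
      | zero => simp at h
      | succ n => exact ⟨by have := (ia t h).1; rw [T.dep]; omega,
          (ia t h).2.trans ⟨u.val, pw a.val n ++ v.val, by simp [T.val, pw]⟩⟩
    · exact ⟨by have := (iv t h).1; rw [T.dep]; omega,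
        (iv t h).2.trans ⟨u.val ++ pw a.val n, [], by simp [T.val]⟩⟩

theorem pw_pre (l : List α) (n : ℕ) : pw l n <+: l ++ pw l n := by
  induction n with
  | zero => simp [pw]
  | succ n ih => exact (List.prefix_append_right_inj _).2 ih

open Classical in
theorem T.par (a : T α) : ∀ (x : List α) (K : Finset (T α)), (∀ t ∈ K, t.val <:+: x) →
    ∃ r ≤ 1 + 3 * (a.sub \ K).card, Par x a.val r := by
  have ex : ∀ (a : T α) (x y : List α) (K : Finset (T α)), a.val <:+: y → (∀ t ∈ K, t.val <:+: x) →
      ∀ t ∈ K ∪ a.sub, t.val <:+: x ++ y := fun a x y K e hK t ht => (Finset.mem_union.1 ht).elim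
    (fun h => (hK t h).trans (List.prefix_append _ _).isInfix)
    fun h => ((a.sub_spec t h).2.trans e).trans (List.suffix_append _ _).isInfix
  have cd : ∀ A B K : Finset (T α), ((A ∪ B) \ K).card = (A \ K).card + (B \ (K ∪ A)).card := fun A B K => by
    rw [show (A ∪ B) \ K = A \ K ∪ B \ (K ∪ A) by ext; simp; tauto,
      Finset.card_union_of_disjoint (Finset.disjoint_left.2 (by simp; tauto))]
  induction a with
  | leaf o => exact fun x K _ => ⟨1, by omega, Par.one (Or.inl (by cases o <;> simp [T.val]))⟩
  | node u a n v iu ia iv =>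
    intro x K hK
    by_cases h : node u a n v ∈ K
    · obtain ⟨s, t, rfl⟩ := hK _ h
      exact ⟨1, by omega, Par.one (or_iff_not_imp_left.2 fun h =>
        ⟨s.length, by simp only [List.length_append]; omega, by simp⟩)⟩
    have nn : node u a n v ∉ (u.sub ∪ ((if n = 0 then ∅ else a.sub) ∪ v.sub)) \ K := fun k => by
      have := (Finset.mem_sdiff.1 k).1
      simp only [Finset.mem_union] at this
      rcases this with k | k | k
      · have := (u.sub_spec _ k).1; rw [T.dep] at this; omega
      · split_ifs at k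
        · simp at k
        · have := (a.sub_spec _ k).1; rw [T.dep] at this; omega
      · have := (v.sub_spec _ k).1; rw [T.dep] at this; omega
    rw [T.sub, Finset.insert_sdiff_of_notMem _ h, Finset.card_insert_of_notMem nn, cd, T.val]
    obtain ⟨r, l, p⟩ := iu x K hK
    have k1 := ex u x _ K List.infix_rfl hK
    cases n with
    | zero =>
      obtain ⟨r', l', p'⟩ := iv _ _ k1
      exact ⟨_, by simp only [if_true, Finset.empty_union]; omega, p.app p'⟩
    | succ n =>
      obtain ⟨r₁, l₁, p₁⟩ := ia _ _ k1
      obtain ⟨r₂, l₂, p₂⟩ := iv _ _ (ex a _ (pw a.val (n + 1)) _ (List.prefix_append _ _).isInfix k1)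
      refine ⟨_, ?_, p.app ((p₁.app (Par.one ?_)).app p₂)⟩
      · rw [if_neg (by omega), cd]; omega
      · by_cases e : a.val = []
        · left; rw [e]; clear * -; induction n <;> simp_all [pw]
        · exact Or.inr ⟨(x ++ u.val).length, by simpa [List.length_pos_iff] using e,
            by rw [List.append_assoc, List.drop_left]; exact pw_pre _ _⟩

theorem pw_cut (l : List α) (n : ℕ) : ∀ i, ∃ p s r, (pw l (n + 1)).take i = pw l p ++ l.take r ∧
    (pw l (n + 1)).drop i = l.drop r ++ pw l s := by
  induction n with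
  | zero => exact fun i => ⟨0, 0, i, by simp [pw]⟩
  | succ n ih =>
    intro i
    rw [pw]
    by_cases h : i ≤ l.length
    · exact ⟨0, n + 1, i, by rw [List.take_append_of_le_length h]; rfl, List.drop_append_of_le_length h⟩
    · obtain ⟨p, s, r, a, b⟩ := ih (i - l.length)
      exact ⟨p + 1, s, r, by rw [List.take_append, a, List.take_of_length_le (by omega), pw,
        List.append_assoc], by rw [List.drop_append, b, List.drop_of_length_le (by omega)]; rfl⟩

open Classical in
theorem T.cut (a : T α) : ∀ i, (∃ u : T α, u.val = a.val.take i ∧ u.dep ≤ a.dep ∧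
    (u.sub \ a.sub).card ≤ a.dep + 1) ∧ ∃ u : T α, u.val = a.val.drop i ∧ u.dep ≤ a.dep ∧
    (u.sub \ a.sub).card ≤ a.dep + 1 := by
  have c1 : ∀ (u : T α) (B C : Finset (T α)), (∀ t ∈ u.sub, t ∉ C → t = u ∨ t ∈ B) →
      (u.sub \ C).card ≤ B.card + 1 := fun u B C h => (Finset.card_le_card fun t ht => Finset.mem_insert.2
        (h t (Finset.mem_sdiff.1 ht).1 (Finset.mem_sdiff.1 ht).2)).trans (Finset.card_insert_le u B)
  induction a with
  | leaf o =>
    have k : ∀ o' : Option α, ((leaf o').sub \ (leaf o).sub).card ≤ (leaf o).dep + 1 := fun o' =>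
      (Finset.card_le_card Finset.sdiff_subset).trans (by simp [T.sub])
    rintro (_ | i)
    · exact ⟨⟨leaf none, rfl, le_rfl, k _⟩, leaf o, rfl, le_rfl, k _⟩
    · exact ⟨⟨leaf o, by cases o <;> simp [T.val], le_rfl, k _⟩, leaf none, by cases o <;> simp [T.val],
        le_rfl, k _⟩
  | node u a n v iu ia iv =>
    intro i
    by_cases h : i ≤ u.val.length
    · obtain ⟨⟨s, s1, s2, s3⟩, t, t1, t2, t3⟩ := iu i
      have := c1 s (s.sub \ u.sub) (node u a n v).sub (by simp [T.sub]; tauto)
      have := c1 (node t a n v) (t.sub \ u.sub) (node u a n v).sub (by simp [T.sub]; tauto)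
      refine ⟨⟨s, by rw [s1, T.val, List.take_append_of_le_length h], ?_⟩,
        node t a n v, by rw [T.val, t1, T.val, List.drop_append_of_le_length h], ?_⟩ <;>
      simp only [T.dep] <;> omega
    rw [T.val, List.take_append, List.drop_append, List.take_of_length_le (l := u.val) (by omega),
      List.drop_of_length_le (l := u.val) (by omega), List.nil_append]
    generalize i - u.val.length = j
    by_cases h' : (pw a.val n).length ≤ j
    · obtain ⟨⟨s, s1, s2, s3⟩, t, t1, t2, t3⟩ := iv (j - (pw a.val n).length)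
      have := c1 (node u a n s) (s.sub \ v.sub) (node u a n v).sub (by simp [T.sub]; tauto)
      have := c1 t (t.sub \ v.sub) (node u a n v).sub (by simp [T.sub]; tauto)
      refine ⟨⟨node u a n s, by rw [T.val, s1, List.take_append, List.take_of_length_le h'], ?_⟩,
        t, by rw [t1, List.drop_append, List.drop_of_length_le h']; rfl, ?_⟩ <;>
      simp only [T.dep] <;> omega
    · obtain ⟨n, rfl⟩ : ∃ m, n = m + 1 := by cases n; simp [pw] at h'; exact ⟨_, rfl⟩
      obtain ⟨p, q, r, e1, e2⟩ := pw_cut a.val n j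
      obtain ⟨⟨s, s1, s2, s3⟩, t, t1, t2, t3⟩ := ia r
      have := c1 (node u a p s) (s.sub \ a.sub) (node u a (n + 1) v).sub
        (by by_cases p = 0 <;> simp [T.sub, *] <;> tauto)
      have := c1 (node t a q v) (t.sub \ a.sub) (node u a (n + 1) v).sub
        (by by_cases q = 0 <;> simp [T.sub, *] <;> tauto)
      refine ⟨⟨node u a p s, by rw [T.val, s1, List.take_append_of_le_length (by omega), e1], ?_⟩,
        node t a q v, by rw [T.val, t1, List.drop_append_of_le_length (by omega), e2,
          List.append_assoc], ?_⟩ <;>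
      simp only [T.dep] <;> omega

open Classical in
theorem T.ext (X : T α) (g : List α) (o : Option α) (h : g = [] ∨ Occ X.val g g) : ∃ Y : T α,
    Y.val = X.val ++ (g ++ o.toList) ∧ Y.dep ≤ X.dep + 2 ∧ Y.sub.card ≤ X.sub.card + 2 * X.dep + 7 := by
  have cu : ∀ A B : Finset (T α), A.card ≤ B.card + (A \ B).card := fun A B => by
    have := Finset.le_card_sdiff B A; omega
  obtain ⟨G, g1, g2, g3⟩ : ∃ G : T α, G.val = g ∧ G.dep ≤ X.dep + 1 ∧
      (G.sub \ X.sub).card ≤ 2 * X.dep + 5 := by
    rcases h with rfl | ⟨j, l, h⟩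
    · exact ⟨leaf none, rfl, by simp [T.dep],
        (Finset.card_le_card Finset.sdiff_subset).trans (by simp [T.sub])⟩
    obtain ⟨P, p1, p2, p3⟩ := (X.cut j).2
    obtain ⟨G, q1, q2, q3⟩ := ((node (leaf none) P g.length (leaf none)).cut g.length).1
    rw [List.drop_append_of_le_length l.le, ← p1] at h
    have a : ∀ k, g <+: pw P.val k ++ g ∧ k ≤ (pw P.val k).length := fun k => by
      induction k with
      | zero => simp [pw]
      | succ k ih =>
        have : P.val.length = X.val.length - j := by simp [p1]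
        rw [pw, List.append_assoc, List.length_append]
        exact ⟨h.trans ((List.prefix_append_right_inj _).2 ih.1), by omega⟩
    simp only [T.dep, T.val, Option.toList_none, List.nil_append, List.append_nil] at q1 q2 q3
    refine ⟨G, q1.trans (List.prefix_iff_eq_take.1 (List.prefix_of_prefix_length_le (a _).1
      (List.prefix_append _ _) (a _).2)).symm, by omega, ?_⟩
    have : G.sub \ X.sub ⊆ insert (node (leaf none) P g.length (leaf none)) (insert (leaf none)
        (G.sub \ (node (leaf none) P g.length (leaf none)).sub ∪ P.sub \ X.sub)) := fun t => by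
      by_cases g.length = 0 <;> simp [T.sub, *] <;> tauto
    have := (Finset.card_le_card this).trans ((Finset.card_insert_le _ _).trans (Nat.succ_le_succ
      ((Finset.card_insert_le _ _).trans (Nat.succ_le_succ (Finset.card_union_le _ _)))))
    omega
  refine ⟨node X G 1 (leaf o), by simp [T.val, pw, g1], by simp only [T.dep]; omega, ?_⟩
  have : (node X G 1 (leaf o)).sub ⊆ insert (node X G 1 (leaf o)) (insert (leaf o)
      (X.sub ∪ G.sub \ X.sub)) := fun t => by simp [T.sub]
  have := (Finset.card_le_card this).trans ((Finset.card_insert_le _ _).trans (Nat.succ_le_succ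
    ((Finset.card_insert_le _ _).trans (Nat.succ_le_succ (Finset.card_union_le _ _)))))
  omega

theorem LZ.tree {x y : List α} {z : ℕ} (h : LZ x y z) : ∀ X : T α, X.val = x → ∃ Y : T α,
    Y.val = x ++ y ∧ Y.dep ≤ X.dep + 2 * z ∧ Y.sub.card ≤ X.sub.card + z * (2 * X.dep + 2 * z + 5) := by
  induction h with
  | nil x => exact fun X e => ⟨X, by simp [e], by omega, by omega⟩
  | step x f y z n _ o _ ih =>
    rintro X rfl
    obtain ⟨g, a, rfl⟩ := (List.eq_nil_or_concat f).resolve_left n
    rw [List.concat_eq_append] at *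
    obtain ⟨Y, y1, y2, y3⟩ := X.ext g (some a) (or_iff_not_imp_left.2 fun e => (o g
      (List.prefix_append _ _) e (by simp)).self (by rw [List.append_assoc]; exact List.prefix_append _ _))
    obtain ⟨Z, z1, z2, z3⟩ := ih Y y1
    exact ⟨Z, by rw [z1, List.append_assoc], by omega, by nlinarith⟩
  | last x f n o =>
    rintro X rfl
    obtain ⟨Y, y1, y2, y3⟩ := X.ext f none (Or.inr (o f List.prefix_rfl n))
    exact ⟨Y, by simpa using y1, by omega, by omega⟩

theorem result : (∀ (α : Type) (S : List α), ∃ z, LZ [] S z) ∧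
    (∀ (α : Type) (S : List α) (i z z' : ℕ), i < S.length → LZ [] S z → LZ [] (S.drop i) z' →
      z' ≤ 34 * z ^ 2) ∧
    ∃ c : ℕ, 1 ≤ c ∧ ∀ (α : Type) (S : List α) (i z z' : ℕ), i < S.length → LZ [] S z →
      LZ [] (S.drop i) z' → z' ≤ c * z ^ c := by
  classical
  have k : ∀ (α : Type) (S : List α) (i z z' : ℕ), i < S.length → LZ [] S z → LZ [] (S.drop i) z' →
      1 ≤ z ∧ z' ≤ 34 * z ^ 2 := fun α S i z z' l h h' => by
    have z1 : 1 ≤ z := by cases h <;> simp at l ⊢
    obtain ⟨Y, y1, y2, y3⟩ := h.tree (.leaf none) rfl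
    obtain ⟨P, p1, p2, p3⟩ := (Y.cut i).2
    obtain ⟨r, r1, r2⟩ := P.par [] ∅ (by simp)
    have := opt r _ _ _ r2 (by rwa [p1, y1])
    have := Finset.le_card_sdiff Y.sub P.sub
    simp only [T.dep, T.sub, Finset.card_singleton, Finset.sdiff_empty] at *
    have : P.sub.card ≤ Y.sub.card + Y.dep + 1 := by omega
    exact ⟨z1, by nlinarith⟩
  exact ⟨fun α S => lz_ex _ [] S le_rfl, fun α S i z z' l h h' => (k α S i z z' l h h').2,
    34, by omega, fun α S i z z' l h h' => (k α S i z z' l h h').2.trans
      (Nat.mul_le_mul_left _ (Nat.pow_le_pow_right (k α S i z z' l h h').1 (by omega)))⟩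

end Pool.Agent.Results.MP_37e11d_lc.Quad
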